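import Pool.Agent.H953Z.St

set_option autoImplicit false

namespace Pool.Agent.H237Z.Pert

open Pool.Agent.H953Z

lemma sum_single {α E : Type*} [AddCommMonoid E] (s : Finset α) (F : α → E) (P : α → Prop)
    (h0 : ∀ a ∈ s, ¬ P a → F a = 0) (h1 : ∀ a ∈ s, ∀ b ∈ s, P a → P b → a = b) :
    ∑ a ∈ s, F a = 0 ∨ ∃ a ∈ s, ∑ a ∈ s, F a = F a := by
  by_cases h : ∃ a ∈ s, P a
  · obtain ⟨a, ha, hp⟩ := h
    refine Or.inr ⟨a, ha, Finset.sum_eq_single_of_mem a ha fun b hb hne => h0 b hb fun hb' => ?_⟩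
    exact hne (h1 b hb a ha hb' hp)
  · push Not at h
    exact Or.inl (Finset.sum_eq_zero fun a ha => h0 a ha (h a ha))

lemma maps_of_inj {X : Type*} {F : X → X} (hF : Function.Injective F) (K : Set X)
    (h : ∀ y, y ∉ K → F y = y) {w : X} (hw : w ∈ K) : F w ∈ K := by
  by_contra hn
  have := hF (h _ hn)
  rw [this] at hn
  exact hn hw

structure Hyp (m : ℕ → ℕ) (C : ℕ → Finset (ℝ × ℝ)) (r : ℕ → ℝ) (g : Fin 4 → ℝ × ℝ → ℝ)
    (Cg : ℝ) : Prop where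
  tri : S_tri
  mod : Model g Cg
  m0 : m 0 = 0
  mono : StrictMono m
  mge : ∀ j, 12 * 2 ^ j ≤ m (j + 1)
  cells : Cells C r

def LL (m : ℕ → ℕ) (j : ℕ) : ℕ := if j = 0 then 1 else m j / 12

noncomputable def nf (m : ℕ → ℕ) (C : ℕ → Finset (ℝ × ℝ)) (r : ℕ → ℝ) (g : Fin 4 → ℝ × ℝ → ℝ)
    (j : ℕ) (p : Fin 4) (w : ℝ × ℝ) : ℝ :=
  ∑ e ∈ C j, r j / LL m j * g p ((r j)⁻¹ • (w - e))

noncomputable def Dn (m : ℕ → ℕ) (C : ℕ → Finset (ℝ × ℝ)) (r : ℕ → ℝ) (g : Fin 4 → ℝ × ℝ → ℝ)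
    (j : ℕ) (p : Fin 4) (w : ℝ × ℝ) : ℝ × ℝ →L[ℝ] ℝ :=
  ∑ e ∈ C j, (1 / LL m j : ℝ) • fderiv ℝ (g p) ((r j)⁻¹ • (w - e))

variable {m : ℕ → ℕ} {C : ℕ → Finset (ℝ × ℝ)} {r : ℕ → ℝ} {g : Fin 4 → ℝ × ℝ → ℝ} {Cg : ℝ}

lemma Hyp.LL_ge (H : Hyp m C r g Cg) (j : ℕ) : 2 ^ j ≤ 2 * LL m j := by
  rcases j with _ | j
  · simp [LL]
  · have := H.mge j
    simp only [LL, Nat.succ_ne_zero, if_false, pow_succ]
    omega

lemma Hyp.one_le_LL (H : Hyp m C r g Cg) (j : ℕ) : 1 ≤ LL m j := by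
  rcases j with _ | j
  · simp [LL]
  · have := H.mge j
    have h2 : 1 ≤ 2 ^ j := Nat.one_le_two_pow
    simp only [LL, Nat.succ_ne_zero, if_false]
    omega

lemma Hyp.one_le_LL' (H : Hyp m C r g Cg) (j : ℕ) : (1 : ℝ) ≤ LL m j := by
  exact_mod_cast H.one_le_LL j

lemma Hyp.Cg_nonneg (H : Hyp m C r g Cg) : 0 ≤ Cg := (norm_nonneg _).trans (H.mod.bound 0 0)

lemma Hyp.fderiv_zero (H : Hyp m C r g Cg) (p : Fin 4) {y : ℝ × ℝ} (hy : 139 < ‖y‖) :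
    fderiv ℝ (g p) y = 0 := by
  have h1 : g p =ᶠ[nhds y] fun _ => 0 := by
    have : {y : ℝ × ℝ | 139 < ‖y‖} ∈ nhds y :=
      (isOpen_lt continuous_const continuous_norm).mem_nhds hy
    filter_upwards [this] with z hz using H.mod.supp p z (le_of_lt hz)
  rw [h1.fderiv_eq]
  simp

lemma Hyp.g_bound (H : Hyp m C r g Cg) : ∃ M : ℝ, 0 ≤ M ∧ ∀ p z, |g p z| ≤ M := by
  have h1 : ∀ p, ∃ M : ℝ, ∀ z, |g p z| ≤ M := by
    intro p
    obtain ⟨M, hM⟩ := (isCompact_closedBall (0 : ℝ × ℝ) 139).exists_bound_of_continuousOn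
      (H.mod.smooth p).continuous.continuousOn
    refine ⟨max M 0, fun z => ?_⟩
    by_cases hz : ‖z‖ ≤ 139
    · exact (hM z (by simpa using hz)).trans (le_max_left _ _)
    · rw [H.mod.supp p z (not_le.1 hz).le, abs_zero]
      exact le_max_right _ _
  choose M hM using h1
  have h2 : ∀ p, 0 ≤ M p := fun p => (abs_nonneg _).trans (hM p 0)
  exact ⟨∑ p, M p, Finset.sum_nonneg fun p _ => h2 p, fun p z =>
    (hM p z).trans (Finset.single_le_sum (fun p _ => h2 p) (Finset.mem_univ p))⟩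

lemma norm_resc {a : ℝ} (ha : 0 < a) (v : ℝ × ℝ) : ‖a⁻¹ • v‖ = ‖v‖ / a := by
  rw [norm_smul, norm_inv, Real.norm_of_nonneg ha.le, div_eq_inv_mul]

lemma Hyp.unique (H : Hyp m C r g Cg) (j : ℕ) (w : ℝ × ℝ) : ∀ a ∈ C j, ∀ b ∈ C j,
    ‖w - a‖ ≤ 140 * r j → ‖w - b‖ ≤ 140 * r j → a = b := by
  intro a ha b hb h1 h2
  by_contra hne
  have h3 := H.cells.sep j a ha b hb hne
  have h4 : ‖a - b‖ ≤ ‖w - a‖ + ‖w - b‖ := by
    have : a - b = (w - b) - (w - a) := by abel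
    rw [this, add_comm]
    exact norm_sub_le _ _
  have := H.cells.r_pos j
  linarith

lemma Hyp.far (H : Hyp m C r g Cg) (j : ℕ) {v : ℝ × ℝ} (h : ¬ ‖v‖ ≤ 140 * r j) :
    139 < ‖(r j)⁻¹ • v‖ := by
  have := H.cells.r_pos j
  rw [norm_resc this, lt_div_iff₀ this]
  linarith [not_le.1 h]

lemma Hyp.far_of_one (H : Hyp m C r g Cg) (j : ℕ) {w : ℝ × ℝ} (hw : ¬ ‖w‖ ≤ 1) :
    ∀ e ∈ C j, ¬ ‖w - e‖ ≤ 140 * r j := by
  intro e he h
  have h1 := H.cells.core j e he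
  have h2 : ‖e‖ ≤ 3 / 4 := by
    rw [Prod.norm_def]
    exact max_le h1.1 h1.2
  have h3 := H.cells.r_le j
  have h4 : ‖w‖ ≤ ‖w - e‖ + ‖e‖ := by simpa using norm_add_le (w - e) e
  simp only [lam] at h3
  apply hw
  linarith

lemma Hyp.nf_far (H : Hyp m C r g Cg) (j : ℕ) (p : Fin 4) {w : ℝ × ℝ}
    (hw : ∀ e ∈ C j, ¬ ‖w - e‖ ≤ 140 * r j) : nf m C r g j p w = 0 :=
  Finset.sum_eq_zero fun e he => by rw [H.mod.supp p _ (H.far j (hw e he)).le, mul_zero]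

lemma Hyp.Dn_far (H : Hyp m C r g Cg) (j : ℕ) (p : Fin 4) {w : ℝ × ℝ}
    (hw : ∀ e ∈ C j, ¬ ‖w - e‖ ≤ 140 * r j) : Dn m C r g j p w = 0 :=
  Finset.sum_eq_zero fun e he => by rw [H.fderiv_zero p (H.far j (hw e he)), smul_zero]

lemma Hyp.nf_near (H : Hyp m C r g Cg) (j : ℕ) (p : Fin 4) {w e : ℝ × ℝ} (he : e ∈ C j)
    (hw : ‖w - e‖ ≤ 140 * r j) : nf m C r g j p w = r j / LL m j * g p ((r j)⁻¹ • (w - e)) :=
  Finset.sum_eq_single_of_mem e he fun b hb hne => by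
    rw [H.mod.supp p _ (H.far j fun h => hne (H.unique j w b hb e he h hw)).le, mul_zero]

lemma Hyp.Dn_cases (H : Hyp m C r g Cg) (j : ℕ) (p : Fin 4) (w : ℝ × ℝ) :
    Dn m C r g j p w = 0 ∨ ∃ y, Dn m C r g j p w = (1 / LL m j : ℝ) • fderiv ℝ (g p) y := by
  rcases sum_single (C j) (fun e => (1 / LL m j : ℝ) • fderiv ℝ (g p) ((r j)⁻¹ • (w - e)))
    (fun e => ‖w - e‖ ≤ 140 * r j)
    (fun e _ h => by simp only [H.fderiv_zero p (H.far j h), smul_zero]) (H.unique j w) with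
    h | ⟨a, _, h⟩
  · exact Or.inl h
  · exact Or.inr ⟨_, h⟩

lemma Hyp.Dn_norm (H : Hyp m C r g Cg) (j : ℕ) (p : Fin 4) (w : ℝ × ℝ) :
    ‖Dn m C r g j p w‖ ≤ Cg / LL m j := by
  have h1 := H.one_le_LL' j
  rcases H.Dn_cases j p w with h | ⟨y, h⟩
  · rw [h, norm_zero]
    exact div_nonneg H.Cg_nonneg (by linarith)
  · rw [h, norm_smul, Real.norm_of_nonneg (by positivity), one_div, ← div_eq_inv_mul]
    exact div_le_div_of_nonneg_right (H.mod.bound p y) (by linarith)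

lemma Hyp.Dn_dir (H : Hyp m C r g Cg) (j : ℕ) (p : Fin 4) (w : ℝ × ℝ) :
    |Dn m C r g j p w (dir p)| ≤ 1 / 2 := by
  have h1 := H.one_le_LL' j
  rcases H.Dn_cases j p w with h | ⟨y, h⟩
  · rw [h]; simp
  · rw [h, smul_apply, smul_eq_mul, abs_mul, abs_of_nonneg (by positivity)]
    have h2 := H.mod.half p y
    have h3 : (1 / LL m j : ℝ) ≤ 1 := by rw [div_le_one (by linarith)]; exact h1
    have h4 : (0 : ℝ) ≤ 1 / LL m j := by positivity
    nlinarith [abs_nonneg (fderiv ℝ (g p) y (dir p))]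

lemma Hyp.nf_bound (H : Hyp m C r g Cg) :
    ∃ M : ℝ, 0 ≤ M ∧ ∀ j p w, |nf m C r g j p w| ≤ M := by
  obtain ⟨M, hM0, hM⟩ := H.g_bound
  refine ⟨M, hM0, fun j p w => ?_⟩
  by_cases h : ∃ e ∈ C j, ‖w - e‖ ≤ 140 * r j
  · obtain ⟨e, he, hw⟩ := h
    have h1 := H.one_le_LL' j
    have h2 := H.cells.r_pos j
    have h3 := H.cells.r_le j
    simp only [lam] at h3
    have h4 : r j / LL m j ≤ 1 := by rw [div_le_one (by linarith)]; linarith
    have h5 : 0 ≤ r j / LL m j := by positivity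
    rw [H.nf_near j p he hw, abs_mul, abs_of_nonneg h5]
    nlinarith [hM p ((r j)⁻¹ • (w - e)), abs_nonneg (g p ((r j)⁻¹ • (w - e)))]
  · push Not at h
    rw [H.nf_far j p fun e he => not_le.2 (h e he), abs_zero]
    exact hM0

lemma Hyp.nf_deriv (H : Hyp m C r g Cg) (j : ℕ) (p : Fin 4) (w : ℝ × ℝ) :
    HasFDerivAt (nf m C r g j p) (Dn m C r g j p w) w := by
  refine HasFDerivAt.fun_sum fun e _ => ?_
  have h1 : HasFDerivAt (fun w : ℝ × ℝ => (r j)⁻¹ • (w - e))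
      ((r j)⁻¹ • ContinuousLinearMap.id ℝ (ℝ × ℝ)) w :=
    ((hasFDerivAt_id w).sub_const e).const_smul (r j)⁻¹
  have h2 := (((H.mod.smooth p).differentiable one_ne_zero _).hasFDerivAt.comp w h1).const_mul
    (r j / LL m j)
  refine HasFDerivAt.congr_fderiv h2 ?_
  have := (H.cells.r_pos j).ne'
  refine ContinuousLinearMap.ext fun v => ?_
  simp only [smul_apply, ContinuousLinearMap.comp_apply,
    ContinuousLinearMap.id_apply, map_smul, smul_eq_mul]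
  field_simp

lemma Hyp.nf_smooth (H : Hyp m C r g Cg) (j : ℕ) (p : Fin 4) : ContDiff ℝ 1 (nf m C r g j p) := by
  refine ContDiff.sum fun e _ => contDiff_const.mul ((H.mod.smooth p).comp ?_)
  exact (contDiff_id.sub contDiff_const).const_smul _

/-- normalised step -/
noncomputable def st (m : ℕ → ℕ) (C : ℕ → Finset (ℝ × ℝ)) (r : ℕ → ℝ) (g : Fin 4 → ℝ × ℝ → ℝ)
    (j : ℕ) (p : Fin 4) (w : ℝ × ℝ) : ℝ × ℝ := w + nf m C r g j p w • dir p

lemma Hyp.st_inj (H : Hyp m C r g Cg) (j : ℕ) (p : Fin 4) :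
    Function.Injective (st m C r g j p) := by
  obtain ⟨M, _, hM⟩ := H.nf_bound
  refine (H.tri.2.2 p _ (H.nf_smooth j p) ⟨M, hM j p⟩ fun z => ?_).2.1.1
  rw [(H.nf_deriv j p z).fderiv]
  linarith [(abs_le.1 (H.Dn_dir j p z)).1]

lemma Hyp.st_box (H : Hyp m C r g Cg) (j : ℕ) (p : Fin 4) {w : ℝ × ℝ} (hw : ‖w‖ ≤ 1) :
    ‖st m C r g j p w‖ ≤ 1 :=
  maps_of_inj (H.st_inj j p) {w | ‖w‖ ≤ 1}
    (fun y hy => by rw [st, H.nf_far j p (H.far_of_one j hy), zero_smul, add_zero]) hw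

lemma Hyp.stp_inj (H : Hyp m C r g Cg) {L : ℕ} (hL : 1 ≤ L) (p : Fin 4) :
    Function.Injective (stp g L p) := by
  obtain ⟨M, hM0, hM⟩ := H.g_bound
  have hL' : (1 : ℝ) ≤ L := by exact_mod_cast hL
  refine (H.tri.2.2 p (fun z => g p z / L) ((H.mod.smooth p).div_const _)
    ⟨M, fun z => ?_⟩ fun z => ?_).2.1.1
  · rw [abs_div, Nat.abs_cast]
    exact (div_le_self (abs_nonneg _) hL').trans (hM p z)
  · have h2 := (((H.mod.smooth p).differentiable one_ne_zero z).hasFDerivAt).mul_const (L : ℝ)⁻¹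
    simp only [div_eq_mul_inv]
    rw [h2.fderiv, smul_apply, smul_eq_mul]
    have h3 := (abs_le.1 (H.mod.half p z)).1
    have h4 : (L : ℝ)⁻¹ ≤ 1 := inv_le_one_of_one_le₀ hL'
    have h5 : 0 ≤ (L : ℝ)⁻¹ := by positivity
    nlinarith

lemma Hyp.stp_box (H : Hyp m C r g Cg) {L : ℕ} (hL : 1 ≤ L) (p : Fin 4) {y : ℝ × ℝ}
    (hy : ‖y‖ ≤ 140) : ‖stp g L p y‖ ≤ 140 :=
  maps_of_inj (H.stp_inj hL p) {w | ‖w‖ ≤ 140}
    (fun y hy => by
      have : ¬ ‖y‖ ≤ 140 := hy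
      rw [stp, H.mod.supp p y (by linarith [not_le.1 this]), zero_div, zero_smul, add_zero]) hy

lemma Hyp.zig_inj (H : Hyp m C r g Cg) {L : ℕ} (hL : 1 ≤ L) : Function.Injective (zig g L) :=
  ((H.stp_inj hL 3).iterate L).comp (((H.stp_inj hL 2).iterate L).comp
    (((H.stp_inj hL 1).iterate L).comp ((H.stp_inj hL 0).iterate L)))

lemma Hyp.st_near (H : Hyp m C r g Cg) (j : ℕ) (p : Fin 4) {e : ℝ × ℝ} (he : e ∈ C j) (n : ℕ)
    {y : ℝ × ℝ} (hy : ‖y‖ ≤ 140) : ‖(stp g (LL m j) p)^[n] y‖ ≤ 140 ∧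
      (st m C r g j p)^[n] (e + r j • y) = e + r j • (stp g (LL m j) p)^[n] y := by
  induction n with
  | zero => exact ⟨hy, rfl⟩
  | succ n ih =>
    rw [Function.iterate_succ_apply', Function.iterate_succ_apply', ih.2]
    refine ⟨H.stp_box (H.one_le_LL j) p ih.1, ?_⟩
    have hr := H.cells.r_pos j
    generalize (stp g (LL m j) p)^[n] y = v at ih
    have h1 : ‖e + r j • v - e‖ ≤ 140 * r j := by
      rw [add_sub_cancel_left, norm_smul, Real.norm_of_nonneg hr.le]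
      nlinarith [ih.1]
    rw [st, H.nf_near j p he h1, add_sub_cancel_left, smul_smul, inv_mul_cancel₀ hr.ne', one_smul,
      stp, smul_add, smul_smul, add_assoc]
    congr 3
    ring

/-- the full normalised zigzag -/
noncomputable def ZZ (m : ℕ → ℕ) (C : ℕ → Finset (ℝ × ℝ)) (r : ℕ → ℝ) (g : Fin 4 → ℝ × ℝ → ℝ)
    (j : ℕ) (w : ℝ × ℝ) : ℝ × ℝ :=
  (st m C r g j 3)^[LL m j] ((st m C r g j 2)^[LL m j] ((st m C r g j 1)^[LL m j]
    ((st m C r g j 0)^[LL m j] w)))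

lemma Hyp.ZZ_near (H : Hyp m C r g Cg) (j : ℕ) {e : ℝ × ℝ} (he : e ∈ C j)
    {y : ℝ × ℝ} (hy : ‖y‖ ≤ 140) : ‖zig g (LL m j) y‖ ≤ 140 ∧
      ZZ m C r g j (e + r j • y) = e + r j • zig g (LL m j) y := by
  obtain ⟨a0, b0⟩ := H.st_near j 0 he (LL m j) hy
  obtain ⟨a1, b1⟩ := H.st_near j 1 he (LL m j) a0
  obtain ⟨a2, b2⟩ := H.st_near j 2 he (LL m j) a1
  obtain ⟨a3, b3⟩ := H.st_near j 3 he (LL m j) a2
  exact ⟨a3, by rw [ZZ, b0, b1, b2, b3, zig]⟩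

lemma Hyp.ZZ_far (H : Hyp m C r g Cg) (j : ℕ) {w : ℝ × ℝ}
    (hw : ∀ e ∈ C j, ¬ ‖w - e‖ ≤ 140 * r j) : ZZ m C r g j w = w := by
  have h : ∀ p n, (st m C r g j p)^[n] w = w := fun p n =>
    Function.iterate_fixed (by rw [st, H.nf_far j p hw, zero_smul, add_zero]) n
  rw [ZZ, h, h, h, h]

lemma Hyp.zig_key (H : Hyp m C r g Cg) {L : ℕ} (hL : 1 ≤ L) (c : Fin 3) (y : ℝ × ℝ)
    (h1 : |y.1 - off c| ≤ 1) (h2 : |y.2| ≤ 1) :
    zig g L y = (fl c * (y.1 - off c), fl c * y.2 + off c) := by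
  fin_cases c
  · have e : off 0 = -18 := by simp [off]
    simp only [Fin.zero_eta, e] at h1 ⊢
    rw [H.mod.left L hL y (by simpa using h1) h2]
    simp [fl, sub_eq_add_neg]
  · have e : off 1 = 0 := by simp [off]
    simp only [Fin.mk_one, e] at h1 ⊢
    rw [H.mod.mid L hL y (by simpa using h1) h2]
    simp [fl]
  · have e : off 2 = 18 := by simp [off]; norm_num
    simp only [Fin.reduceFinMk, e] at h1 ⊢
    rw [H.mod.right L hL y h1 h2]
    simp [fl]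

lemma fl_sq (c : Fin 3) : fl c * fl c = 1 := by unfold fl; split_ifs <;> norm_num

lemma fl_abs (c : Fin 3) : |fl c| = 1 := by unfold fl; split_ifs <;> norm_num

lemma near_iff (e : ℝ × ℝ) (r : ℝ) (w : ℝ × ℝ) : Near e r w.1 w.2 ↔ ‖w - e‖ ≤ 140 * r := by
  simp [Near, Prod.norm_def]

lemma Hyp.rel (H : Hyp m C r g Cg) (j : ℕ) (w : ℝ × ℝ) :
    Rel (C j) (r j) w.1 w.2 (ZZ m C r g j w).1 (ZZ m C r g j w).2 := by
  by_cases h : ∃ e ∈ C j, ‖w - e‖ ≤ 140 * r j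
  swap
  · push Not at h
    have h' : ∀ e ∈ C j, ¬ ‖w - e‖ ≤ 140 * r j := fun e he => not_le.2 (h e he)
    rw [H.ZZ_far j h']
    exact Or.inl ⟨fun e he => by rw [near_iff]; exact h' e he, rfl, rfl⟩
  obtain ⟨e, he, hw⟩ := h
  have hr := H.cells.r_pos j
  have hL := H.one_le_LL j
  obtain ⟨y, rfl⟩ : ∃ y, w = e + r j • y :=
    ⟨(r j)⁻¹ • (w - e), by rw [smul_smul, mul_inv_cancel₀ hr.ne', one_smul, add_sub_cancel]⟩
  have hy : ‖y‖ ≤ 140 := by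
    rw [add_sub_cancel_left, norm_smul, Real.norm_of_nonneg hr.le] at hw
    nlinarith
  obtain ⟨h1, h2⟩ := H.ZZ_near j he hy
  have sc : ∀ t : ℝ, |r j * t| ≤ r j → |t| ≤ 1 := by
    intro t ht
    rw [abs_mul, abs_of_pos hr] at ht
    nlinarith
  have form : ∀ c, |y.1 - off c| ≤ 1 → |y.2| ≤ 1 → Form e (r j) c (e + r j • y).1 (e + r j • y).2
      (e + r j • zig g (LL m j) y).1 (e + r j • zig g (LL m j) y).2 := by
    intro c a b
    rw [H.zig_key hL c y a b]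
    simp only [Form, Prod.fst_add, Prod.snd_add, Prod.smul_fst, Prod.smul_snd, smul_eq_mul]
    constructor
    · linear_combination (-(r j * (y.1 - off c))) * fl_sq c
    · ring
  rw [h2]
  refine Or.inr ⟨e, he, (near_iff _ _ _).2 hw, (near_iff _ _ _).2 ?_, ?_, ?_, ?_⟩
  · rw [add_sub_cancel_left, norm_smul, Real.norm_of_nonneg hr.le]
    nlinarith
  · intro a b
    simp only [Prod.fst_add, Prod.snd_add, Prod.smul_fst, Prod.smul_snd, smul_eq_mul,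
      add_sub_cancel_left] at a b
    rcases H.mod.cross _ hL y (sc _ a) (sc _ b) with h3 | h3 | h3
    · exact ⟨0, form 0 (by simpa [off] using h3) (sc _ a)⟩
    · exact ⟨1, form 1 (by simpa [off] using h3) (sc _ a)⟩
    · refine ⟨2, form 2 ?_ (sc _ a)⟩
      have e : off 2 = 18 := by simp [off]; norm_num
      rwa [e]
  · rintro c ⟨a, b⟩
    simp only [Prod.fst_add, Prod.snd_add, Prod.smul_fst, Prod.smul_snd, smul_eq_mul,
      add_sub_cancel_left] at a b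
    refine form c (sc _ ?_) (sc _ b)
    rwa [mul_sub, mul_comm (r j) (off c)]
  · rintro c ⟨a, b⟩
    simp only [Prod.fst_add, Prod.snd_add, Prod.smul_fst, Prod.smul_snd, smul_eq_mul,
      add_sub_cancel_left] at a b
    have a' := sc _ a
    have b' : |(zig g (LL m j) y).2 - off c| ≤ 1 := sc _ (by rwa [mul_sub, mul_comm (r j) (off c)])
    have c1 : |(fl c * (zig g (LL m j) y).1 + off c) - off c| ≤ 1 := by
      rw [add_sub_cancel_right, abs_mul, fl_abs, one_mul]; exact a'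
    have c2 : |fl c * ((zig g (LL m j) y).2 - off c)| ≤ 1 := by
      rw [abs_mul, fl_abs, one_mul]; exact b'
    have h3 := H.zig_key hL c (fl c * (zig g (LL m j) y).1 + off c,
      fl c * ((zig g (LL m j) y).2 - off c)) c1 c2
    have h4 : (fl c * (zig g (LL m j) y).1 + off c, fl c * ((zig g (LL m j) y).2 - off c)) = y := by
      apply H.zig_inj hL
      rw [h3]
      apply Prod.ext
      · simp only
        linear_combination (zig g (LL m j) y).1 * fl_sq c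
      · simp only
        linear_combination ((zig g (LL m j) y).2 - off c) * fl_sq c
    refine form c ?_ ?_
    · rw [← h4]; exact c1
    · rw [← h4]; exact c2

end Pool.Agent.H237Z.Pert
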