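import Pool.Agent.H237Z.Pert.A

set_option autoImplicit false

namespace Pool.Agent.H237Z.Pert

open Pool.Agent.H953Z

noncomputable def cx (d : ℕ) : ℝ := 1 / ((d : ℝ) + 1)
noncomputable def lx (d : ℕ) : ℝ := eps / ((d : ℝ) + 1) ^ 2
noncomputable def cy (d : ℕ) : ℝ := if d = 0 then 9 else cx d - 18
noncomputable def ly (d : ℕ) : ℝ := if d = 0 then 18 else lx d

lemma ax_eq (d : ℕ) (t : ℝ) : ax d t = cx d + lx d * t := rfl

lemma ay_eq (d : ℕ) (t : ℝ) : ay d t = cy d + ly d * t := by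
  unfold ay cy ly
  split_ifs
  · rfl
  · rw [ax_eq]; ring

lemma lx_pos (d : ℕ) : 0 < lx d := by unfold lx eps; positivity

lemma ly_pos (d : ℕ) : 0 < ly d := by
  unfold ly; split_ifs
  · norm_num
  · exact lx_pos d

lemma lx_le (d : ℕ) : lx d ≤ 18 := by
  unfold lx eps
  have : (1 : ℝ) ≤ ((d : ℝ) + 1) ^ 2 := one_le_pow₀ (by linarith [Nat.cast_nonneg (α := ℝ) d])
  rw [div_le_iff₀ (by positivity)]
  linarith

lemma ly_le (d : ℕ) : ly d ≤ 18 := by
  unfold ly; split_ifs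
  · norm_num
  · exact lx_le d

lemma ax_lt {e e' : ℕ} (h : e < e') {s t : ℝ} (hs : |s| ≤ 1) (ht : |t| ≤ 1) :
    ax e' t < ax e s := by
  obtain ⟨k, rfl⟩ := Nat.exists_eq_add_of_lt h
  have h1 := (abs_le.1 hs).1
  have h2 := (abs_le.1 ht).2
  have h3 := lx_pos e
  have h4 := lx_pos (e + k + 1)
  have h5 : cx (e + k + 1) + lx (e + k + 1) < cx e - lx e := by
    unfold cx lx eps
    push_cast
    have ha : (1 : ℝ) ≤ (e : ℝ) + 1 := by linarith [Nat.cast_nonneg (α := ℝ) e]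
    have hk : (1 : ℝ) ≤ (k : ℝ) + 1 := by linarith [Nat.cast_nonneg (α := ℝ) k]
    rw [show (e : ℝ) + k + 1 + 1 = (e + 1) + (k + 1) by ring]
    generalize (e : ℝ) + 1 = a at *
    generalize (k : ℝ) + 1 = b at *
    have hab : 0 < a + b := by linarith
    rw [div_add_div _ _ (by positivity) (by positivity), div_sub_div _ _ (by positivity)
      (by positivity), div_lt_div_iff₀ (by positivity) (by positivity)]
    have e1 : 0 < a * (a + b) := by positivity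
    have key : (a ^ 2 + (a + b) ^ 2) / 100000 < b * a * (a + b) := by
      nlinarith [mul_le_mul ha hk zero_le_one (by linarith), mul_pos e1 hab,
        mul_le_mul_of_nonneg_left hk (sq_nonneg a), mul_le_mul_of_nonneg_left ha (sq_nonneg b)]
    nlinarith [mul_lt_mul_of_pos_left key e1]
  rw [ax_eq, ax_eq]
  nlinarith

lemma ax_inj {e e' : ℕ} {s t : ℝ} (hs : |s| ≤ 1) (ht : |t| ≤ 1) (h : ax e s = ax e' t) :
    e = e' := by
  rcases lt_trichotomy e e' with h1 | h1 | h1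
  · exact absurd h (ax_lt h1 hs ht).ne'
  · exact h1
  · exact absurd h (ax_lt h1 ht hs).ne

lemma ax_le {e : ℕ} {s : ℝ} (hs : |s| ≤ 1) : ax e s ≤ 2 := by
  have h0 : ∀ t : ℝ, |t| ≤ 1 → ax 0 t ≤ 2 := by
    intro t ht
    have := (abs_le.1 ht).2
    simp only [ax, eps]
    norm_num
    linarith
  rcases e with _ | e
  · exact h0 s hs
  · exact (ax_lt (Nat.succ_pos e) hs hs).le.trans (h0 s hs)

lemma ax_pos {e : ℕ} {s : ℝ} (hs : |s| ≤ 1) : 0 < ax e s := by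
  refine lt_trans ?_ (ax_lt (Nat.lt_succ_self e) hs (t := 0) (by simp))
  simp only [ax, mul_zero, add_zero]
  positivity

lemma ay_inj {e e' : ℕ} {s t : ℝ} (hs : |s| ≤ 1) (ht : |t| ≤ 1) (h : ay e s = ay e' t) :
    e = e' := by
  unfold ay at h
  have h1 := ax_le (e := e) hs
  have h2 := ax_le (e := e') ht
  have h3 := (abs_le.1 hs).1
  have h4 := (abs_le.1 ht).1
  split_ifs at h with a b b
  · rw [a, b]
  · linarith
  · linarith
  · exact ax_inj hs ht (by linarith)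

lemma zone_inj {e i e' i' : ℕ} {z : ℝ × ℝ} (h : Zone e i z) (h' : Zone e' i' z) :
    e = e' ∧ i = i' := by
  obtain ⟨w, hw, rfl⟩ := h
  obtain ⟨w', hw', h⟩ := h'
  rw [Prod.norm_def, max_le_iff] at hw hw'
  exact ⟨ax_inj hw.1 hw'.1 (congrArg Prod.fst h), ay_inj hw.2 hw'.2 (congrArg Prod.snd h)⟩

lemma not_zone_zero (e i : ℕ) : ¬ Zone e i 0 := by
  rintro ⟨w, hw, h⟩
  rw [Prod.norm_def, max_le_iff] at hw
  exact (ax_pos (e := e) hw.1).ne (congrArg Prod.fst h)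

/-- diagonal linear map -/
noncomputable def Dg (a b : ℝ) : ℝ × ℝ →L[ℝ] ℝ × ℝ :=
  (a • ContinuousLinearMap.fst ℝ ℝ ℝ).prod (b • ContinuousLinearMap.snd ℝ ℝ ℝ)

lemma Dg_apply (a b : ℝ) (v : ℝ × ℝ) : Dg a b v = (a * v.1, b * v.2) := rfl

noncomputable def psi (e i : ℕ) (z : ℝ × ℝ) : ℝ × ℝ := Dg (lx e)⁻¹ (ly i)⁻¹ (z - (cx e, cy i))

lemma psi_phi (e i : ℕ) (w : ℝ × ℝ) : psi e i (ax e w.1, ay i w.2) = w := by
  have h1 := (lx_pos e).ne'
  have h2 := (ly_pos i).ne'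
  rw [psi, Dg_apply, ax_eq, ay_eq]
  apply Prod.ext <;> simp only [Prod.fst_sub, Prod.snd_sub] <;> field_simp <;> ring

lemma zone_of_psi {e i : ℕ} {z : ℝ × ℝ} (h : ‖psi e i z‖ ≤ 1) : Zone e i z := by
  refine ⟨_, h, ?_⟩
  have h1 := (lx_pos e).ne'
  have h2 := (ly_pos i).ne'
  rw [psi, Dg_apply, ax_eq, ay_eq]
  apply Prod.ext <;> simp only [Prod.fst_sub, Prod.snd_sub] <;> field_simp <;> ring

lemma psi_deriv (e i : ℕ) (z : ℝ × ℝ) : HasFDerivAt (psi e i) (Dg (lx e)⁻¹ (ly i)⁻¹) z := by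
  have := (Dg (lx e)⁻¹ (ly i)⁻¹).hasFDerivAt.comp z ((hasFDerivAt_id z).sub_const (cx e, cy i))
  rwa [ContinuousLinearMap.comp_id] at this

lemma psi_smooth (e i : ℕ) : ContDiff ℝ 1 (psi e i) :=
  (Dg (lx e)⁻¹ (ly i)⁻¹).contDiff.comp (contDiff_id.sub contDiff_const)

noncomputable def sc (e i : ℕ) (p : Fin 4) : ℝ := if p = 0 ∨ p = 2 then ly i else lx e

lemma sc_pos (e i : ℕ) (p : Fin 4) : 0 < sc e i p := by
  unfold sc; split_ifs
  · exact ly_pos i
  · exact lx_pos e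

lemma sc_le (e i : ℕ) (p : Fin 4) : sc e i p ≤ 18 := by
  unfold sc; split_ifs
  · exact ly_le i
  · exact lx_le e

lemma sc_dir (e i : ℕ) (p : Fin 4) : sc e i p • Dg (lx e)⁻¹ (ly i)⁻¹ (dir p) = dir p := by
  have h1 := (lx_pos e).ne'
  have h2 := (ly_pos i).ne'
  unfold sc dir
  split_ifs <;> simp [Dg_apply, h1, h2]

lemma phi_step (e i : ℕ) (p : Fin 4) (w : ℝ × ℝ) (t : ℝ) :
    ((ax e w.1, ay i w.2) : ℝ × ℝ) + (sc e i p * t) • dir p =
      (ax e (w + t • dir p).1, ay i (w + t • dir p).2) := by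
  unfold sc dir
  simp only [ax_eq, ay_eq]
  split_ifs <;> apply Prod.ext <;> simp <;> ring

def Act (m : ℕ → ℕ) (j i : ℕ) (p : Fin 4) : Prop :=
  (j = 0 ∧ i = 0) ∨ (j ≠ 0 ∧ (4 + p.val) * LL m j ≤ i ∧ i < (5 + p.val) * LL m j)

instance (m : ℕ → ℕ) (j i : ℕ) (p : Fin 4) : Decidable (Act m j i p) := by
  unfold Act; infer_instance

variable {m : ℕ → ℕ} {C : ℕ → Finset (ℝ × ℝ)} {r : ℕ → ℝ} {g : Fin 4 → ℝ × ℝ → ℝ} {Cg : ℝ}

lemma lx_ratio {a b : ℕ} (h : b + 1 ≤ 4 * (a + 1)) : lx a * (lx b)⁻¹ ≤ 1800000 := by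
  have h1 : (b : ℝ) + 1 ≤ 4 * (a + 1) := by exact_mod_cast h
  have h2 := lx_pos b
  rw [← div_eq_mul_inv, div_le_iff₀ h2]
  unfold lx eps
  rw [← mul_div_assoc, div_le_div_iff₀ (by positivity) (by positivity)]
  have h3 : ((b : ℝ) + 1) ^ 2 ≤ (4 * (a + 1)) ^ 2 := pow_le_pow_left₀ (by positivity) h1 2
  nlinarith [sq_nonneg ((a : ℝ) + 1)]

lemma Hyp.ratio (H : Hyp m C r g Cg) {j i : ℕ} {p : Fin 4} (h : Act m j i p) :
    sc (m j - i) i p * (lx (m j - i))⁻¹ ≤ 1800000 ∧ sc (m j - i) i p * (ly i)⁻¹ ≤ 1800000 := by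
  have hL := H.one_le_LL j
  rcases h with ⟨rfl, rfl⟩ | ⟨hj, h1, h2⟩
  · rw [H.m0]
    unfold sc
    split_ifs <;> simp [lx, ly, eps] <;> norm_num
  · have hp := p.2
    have h3 : 4 * LL m j ≤ i := le_trans (Nat.mul_le_mul_right _ (by omega)) h1
    have h4 : i < 8 * LL m j := lt_of_lt_of_le h2 (Nat.mul_le_mul_right _ (by omega))
    simp only [LL, hj, if_false] at h3 h4 hL
    have hi : i ≠ 0 := by omega
    unfold sc
    simp only [ly, hi, if_false]
    split_ifs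
    · exact ⟨lx_ratio (by omega), lx_ratio (by omega)⟩
    · exact ⟨lx_ratio (by omega), lx_ratio (by omega)⟩

/-- one term of the real field -/
noncomputable def TT (m : ℕ → ℕ) (C : ℕ → Finset (ℝ × ℝ)) (r : ℕ → ℝ) (g : Fin 4 → ℝ × ℝ → ℝ)
    (p : Fin 4) (j i : ℕ) (z : ℝ × ℝ) : ℝ :=
  if Act m j i p then sc (m j - i) i p * nf m C r g j p (psi (m j - i) i z) else 0

noncomputable def DT (m : ℕ → ℕ) (C : ℕ → Finset (ℝ × ℝ)) (r : ℕ → ℝ) (g : Fin 4 → ℝ × ℝ → ℝ)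
    (p : Fin 4) (j i : ℕ) (z : ℝ × ℝ) : ℝ × ℝ →L[ℝ] ℝ :=
  if Act m j i p then sc (m j - i) i p • (Dn m C r g j p (psi (m j - i) i z)).comp
    (Dg (lx (m j - i))⁻¹ (ly i)⁻¹) else 0

lemma Hyp.TT_deriv (H : Hyp m C r g Cg) (p : Fin 4) (j i : ℕ) (z : ℝ × ℝ) :
    HasFDerivAt (TT m C r g p j i) (DT m C r g p j i z) z := by
  unfold TT DT
  split_ifs
  · exact ((H.nf_deriv j p _).comp z (psi_deriv _ _ z)).const_mul _
  · exact hasFDerivAt_const _ _

lemma Hyp.TT_smooth (H : Hyp m C r g Cg) (p : Fin 4) (j i : ℕ) :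
    ContDiff ℝ 1 (TT m C r g p j i) := by
  unfold TT
  split_ifs
  · exact contDiff_const.mul ((H.nf_smooth j p).comp (psi_smooth _ _))
  · exact contDiff_const

lemma Hyp.TT_zero (H : Hyp m C r g Cg) (p : Fin 4) (j i : ℕ) (z : ℝ × ℝ)
    (h : ¬ Zone (m j - i) i z) : TT m C r g p j i z = 0 := by
  unfold TT
  rw [H.nf_far j p (H.far_of_one j fun h' => h (zone_of_psi h'))]
  simp

lemma Hyp.DT_zero (H : Hyp m C r g Cg) (p : Fin 4) (j i : ℕ) (z : ℝ × ℝ)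
    (h : ¬ Zone (m j - i) i z) : DT m C r g p j i z = 0 := by
  unfold DT
  rw [H.Dn_far j p (H.far_of_one j fun h' => h (zone_of_psi h'))]
  simp

lemma Hyp.DT_norm (H : Hyp m C r g Cg) (p : Fin 4) (j i : ℕ) (z : ℝ × ℝ) :
    ‖DT m C r g p j i z‖ ≤ Cg / LL m j * 1800000 := by
  have h0 : 0 ≤ Cg / LL m j := div_nonneg H.Cg_nonneg (Nat.cast_nonneg _)
  unfold DT
  split_ifs with h
  · obtain ⟨h1, h2⟩ := H.ratio h
    refine ContinuousLinearMap.opNorm_le_bound _ (by positivity) fun v => ?_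
    rw [smul_apply, ContinuousLinearMap.comp_apply, ← map_smul, mul_assoc]
    refine (ContinuousLinearMap.le_opNorm _ _).trans
      (mul_le_mul (H.Dn_norm _ _ _) ?_ (norm_nonneg _) h0)
    have a1 := sc_pos (m j - i) i p
    have a2 := lx_pos (m j - i)
    have a3 := ly_pos i
    rw [Dg_apply, Prod.smul_mk, Prod.norm_def, smul_eq_mul, smul_eq_mul, ← mul_assoc, ← mul_assoc,
      norm_mul, norm_mul _ v.2, Real.norm_of_nonneg (by positivity),
      Real.norm_of_nonneg (r := _ * (ly i)⁻¹) (by positivity)]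
    exact max_le (mul_le_mul h1 (norm_fst_le v) (norm_nonneg _) (by norm_num))
      (mul_le_mul h2 (norm_snd_le v) (norm_nonneg _) (by norm_num))
  · rw [norm_zero]; positivity

lemma Hyp.DT_dir (H : Hyp m C r g Cg) (p : Fin 4) (j i : ℕ) (z : ℝ × ℝ) :
    |DT m C r g p j i z (dir p)| ≤ 1 / 2 := by
  unfold DT
  split_ifs with h
  · rw [smul_apply, ContinuousLinearMap.comp_apply, ← map_smul, sc_dir]
    exact H.Dn_dir _ _ _
  · simp

lemma Hyp.tsum_zone (H : Hyp m C r g Cg) {E : Type*} [AddCommMonoid E] [TopologicalSpace E]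
    (F : ℕ → ℕ → E) (z : ℝ × ℝ) (hF : ∀ j i, ¬ Zone (m j - i) i z → F j i = 0) {e i j : ℕ}
    (hz : Zone e i z) (hj : e + i = m j) :
    ∑' j, ∑ i ∈ Finset.range (m j + 1), F j i = F j i := by
  have key : ∀ j' i', i' ∈ Finset.range (m j' + 1) → Zone (m j' - i') i' z → j' = j ∧ i' = i := by
    intro j' i' hi' h
    obtain ⟨h1, h2⟩ := zone_inj h hz
    have := Finset.mem_range.1 hi'
    exact ⟨H.mono.injective (by omega), h2⟩
  rw [tsum_eq_single j]
  · refine Finset.sum_eq_single_of_mem i (Finset.mem_range.2 (by omega)) fun i' hi' hne => ?_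
    exact hF _ _ fun h => hne (key _ _ hi' h).2
  · intro j' hne
    exact Finset.sum_eq_zero fun i' hi' => hF _ _ fun h => hne (key _ _ hi' h).1

lemma tsum_nozone {E : Type*} [AddCommMonoid E] [TopologicalSpace E]
    (F : ℕ → ℕ → E) (z : ℝ × ℝ) (hF : ∀ j i, ¬ Zone (m j - i) i z → F j i = 0)
    (hz : ∀ e i j, Zone e i z → e + i ≠ m j) :
    ∑' j, ∑ i ∈ Finset.range (m j + 1), F j i = 0 := by
  have : ∀ j, ∑ i ∈ Finset.range (m j + 1), F j i = 0 := by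
    intro j
    refine Finset.sum_eq_zero fun i hi => hF _ _ fun h => hz _ _ j h ?_
    have := Finset.mem_range.1 hi
    omega
  simp [this]

lemma Hyp.tsum_cases (H : Hyp m C r g Cg) {E : Type*} [AddCommMonoid E] [TopologicalSpace E]
    (F : ℕ → ℕ → E) (z : ℝ × ℝ) (hF : ∀ j i, ¬ Zone (m j - i) i z → F j i = 0) :
    ∑' j, ∑ i ∈ Finset.range (m j + 1), F j i = 0 ∨
      ∃ j i, ∑' j, ∑ i ∈ Finset.range (m j + 1), F j i = F j i := by
  by_cases h : ∃ e i j, Zone e i z ∧ e + i = m j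
  · obtain ⟨e, i, j, h1, h2⟩ := h
    exact Or.inr ⟨j, i, H.tsum_zone F z hF h1 h2⟩
  · push Not at h
    exact Or.inl (tsum_nozone F z hF h)

/-- the real field -/
noncomputable def UU (m : ℕ → ℕ) (C : ℕ → Finset (ℝ × ℝ)) (r : ℕ → ℝ) (g : Fin 4 → ℝ × ℝ → ℝ)
    (p : Fin 4) (z : ℝ × ℝ) : ℝ :=
  ∑' j, ∑ i ∈ Finset.range (m j + 1), TT m C r g p j i z

lemma Hyp.level_norm (H : Hyp m C r g Cg) (p : Fin 4) (j : ℕ) (z : ℝ × ℝ) :
    ‖∑ i ∈ Finset.range (m j + 1), DT m C r g p j i z‖ ≤ Cg * 3600000 * (1 / 2) ^ j := by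
  have h0 := H.Cg_nonneg
  have h1 : Cg / LL m j * 1800000 ≤ Cg * 3600000 * (1 / 2) ^ j := by
    have h2 : (2 : ℝ) ^ j ≤ 2 * LL m j := by exact_mod_cast H.LL_ge j
    have h3 := H.one_le_LL' j
    rw [one_div, inv_pow, ← div_eq_mul_inv, div_mul_eq_mul_div,
      div_le_div_iff₀ (by linarith) (by positivity)]
    nlinarith
  rcases sum_single (Finset.range (m j + 1)) (fun i => DT m C r g p j i z)
    (fun i => Zone (m j - i) i z) (fun i _ h => H.DT_zero p j i z h)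
    (fun a _ b _ ha hb => (zone_inj ha hb).2) with h | ⟨a, _, h⟩
  · rw [h, norm_zero]; positivity
  · rw [h]
    exact (H.DT_norm p j a z).trans h1

lemma Hyp.UU_deriv (H : Hyp m C r g Cg) (p : Fin 4) (z : ℝ × ℝ) :
    HasFDerivAt (UU m C r g p) (∑' j, ∑ i ∈ Finset.range (m j + 1), DT m C r g p j i z) z := by
  refine hasFDerivAt_tsum (u := fun j => Cg * 3600000 * (1 / 2) ^ j) (x₀ := 0)
    (summable_geometric_two.mul_left _)
    (fun j x => HasFDerivAt.fun_sum fun i _ => H.TT_deriv p j i x) (H.level_norm p) ?_ z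
  have : ∀ j, ∑ i ∈ Finset.range (m j + 1), TT m C r g p j i 0 = 0 := fun j =>
    Finset.sum_eq_zero fun i _ => H.TT_zero p j i 0 (not_zone_zero _ _)
  simp only [this]
  exact summable_zero

lemma Hyp.UU_smooth (H : Hyp m C r g Cg) (p : Fin 4) : ContDiff ℝ 1 (UU m C r g p) := by
  rw [contDiff_one_iff_fderiv]
  refine ⟨fun z => (H.UU_deriv p z).differentiableAt, ?_⟩
  have : fderiv ℝ (UU m C r g p) =
      fun z => ∑' j, ∑ i ∈ Finset.range (m j + 1), DT m C r g p j i z :=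
    funext fun z => (H.UU_deriv p z).fderiv
  rw [this]
  refine continuous_tsum (u := fun j => Cg * 3600000 * (1 / 2) ^ j) (fun j => ?_)
    (summable_geometric_two.mul_left _) (H.level_norm p)
  refine continuous_finsetSum _ fun i _ => ?_
  have h1 : DT m C r g p j i = fderiv ℝ (TT m C r g p j i) :=
    funext fun z => (H.TT_deriv p j i z).fderiv.symm
  rw [h1]
  exact (H.TT_smooth p j i).continuous_fderiv one_ne_zero

/-- one real step -/
noncomputable def GG (m : ℕ → ℕ) (C : ℕ → Finset (ℝ × ℝ)) (r : ℕ → ℝ) (g : Fin 4 → ℝ × ℝ → ℝ)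
    (p : Fin 4) (z : ℝ × ℝ) : ℝ × ℝ := z + UU m C r g p z • dir p

lemma Hyp.GG_isD (H : Hyp m C r g Cg) (p : Fin 4) : IsD (GG m C r g p) := by
  obtain ⟨M, hM0, hM⟩ := H.nf_bound
  refine H.tri.2.2 p _ (H.UU_smooth p) ⟨18 * M, fun z => ?_⟩ fun z => ?_
  · rcases H.tsum_cases (fun j i => TT m C r g p j i z) z (fun j i => H.TT_zero p j i z) with
      h | ⟨j, i, h⟩
    · rw [UU, h, abs_zero]; positivity
    · rw [UU, h, TT]
      split_ifs
      · rw [abs_mul, abs_of_pos (sc_pos _ _ _)]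
        exact mul_le_mul (sc_le _ _ _) (hM _ _ _) (abs_nonneg _) (by norm_num)
      · rw [abs_zero]; positivity
  · rw [(H.UU_deriv p z).fderiv]
    rcases H.tsum_cases (fun j i => DT m C r g p j i z) z (fun j i => H.DT_zero p j i z) with
      h | ⟨j, i, h⟩
    · rw [h]; simp
    · rw [h]
      linarith [(abs_le.1 (H.DT_dir p j i z)).1]

open Classical in
/-- normalised step at depth `d`, time `i` -/
noncomputable def sd (m : ℕ → ℕ) (C : ℕ → Finset (ℝ × ℝ)) (r : ℕ → ℝ) (g : Fin 4 → ℝ × ℝ → ℝ)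
    (d i : ℕ) (p : Fin 4) : ℝ × ℝ → ℝ × ℝ :=
  if h : ∃ j, d = m j then (if Act m h.choose i p then st m C r g h.choose p else id) else id

lemma Hyp.sd_eq (H : Hyp m C r g Cg) (j i : ℕ) (p : Fin 4) :
    sd m C r g (m j) i p = if Act m j i p then st m C r g j p else id := by
  have h : ∃ j', m j = m j' := ⟨j, rfl⟩
  have h1 : h.choose = j := (H.mono.injective h.choose_spec).symm
  rw [sd, dif_pos h, h1]

lemma sd_triv {d : ℕ} (h : ∀ j, d ≠ m j) (i : ℕ) (p : Fin 4) : sd m C r g d i p = id := by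
  rw [sd, dif_neg]
  rintro ⟨j, hj⟩
  exact h j hj

lemma Hyp.sd_box (H : Hyp m C r g Cg) (d i : ℕ) (p : Fin 4) {w : ℝ × ℝ} (hw : ‖w‖ ≤ 1) :
    ‖sd m C r g d i p w‖ ≤ 1 := by
  unfold sd
  split_ifs
  · exact H.st_box _ _ hw
  · exact hw
  · exact hw

lemma Hyp.GG_loc (H : Hyp m C r g Cg) (p : Fin 4) (e i : ℕ) {w : ℝ × ℝ} (hw : ‖w‖ ≤ 1) :
    GG m C r g p (ax e w.1, ay i w.2) =
      (ax e (sd m C r g (e + i) i p w).1, ay i (sd m C r g (e + i) i p w).2) := by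
  have hz : Zone e i (ax e w.1, ay i w.2) := ⟨w, hw, rfl⟩
  by_cases h : ∃ j, e + i = m j
  · obtain ⟨j, hj⟩ := h
    have h1 : m j - i = e := by omega
    rw [GG, UU, H.tsum_zone (fun j i' => TT m C r g p j i' _) _ (fun j i => H.TT_zero p j i _) hz hj,
      hj, H.sd_eq, TT, h1, psi_phi]
    split_ifs
    · exact phi_step _ _ _ _ _
    · simp
  · push Not at h
    rw [GG, UU, tsum_nozone (fun j i' => TT m C r g p j i' _) _ (fun j i => H.TT_zero p j i _),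
      sd_triv h]
    · simp
    · intro e' i' j h'
      obtain ⟨rfl, rfl⟩ := zone_inj h' hz
      exact h j

lemma Hyp.GG_out (H : Hyp m C r g Cg) (p : Fin 4) {z : ℝ × ℝ} (hz : ∀ e i, ¬ Zone e i z) :
    GG m C r g p z = z := by
  rw [GG, UU, tsum_nozone (fun j i' => TT m C r g p j i' _) _ (fun j i => H.TT_zero p j i _)
    fun e i _ h => absurd h (hz e i)]
  simp

lemma cum_add (S : ℕ → ℝ × ℝ → ℝ × ℝ) (f : ℝ × ℝ → ℝ × ℝ) {a b : ℕ} (n : ℕ) (hb : b = a + n)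
    (h : ∀ i, a ≤ i → i < b → S i = f) : cum S b = f^[n] ∘ cum S a := by
  subst hb
  induction n with
  | zero => rfl
  | succ n ih =>
    rw [← add_assoc, cum, ih fun i h1 h2 => h i h1 (by omega), h (a + n) (by omega) (by omega),
      Function.iterate_succ']
    rfl

noncomputable def SS (m : ℕ → ℕ) (C : ℕ → Finset (ℝ × ℝ)) (r : ℕ → ℝ) (g : Fin 4 → ℝ × ℝ → ℝ)
    (d i : ℕ) : ℝ × ℝ → ℝ × ℝ :=
  sd m C r g d i 3 ∘ sd m C r g d i 2 ∘ sd m C r g d i 1 ∘ sd m C r g d i 0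

lemma Hyp.cum_eq (H : Hyp m C r g Cg) (j : ℕ) :
    cum (SS m C r g (m j)) (m j + 1) = ZZ m C r g j := by
  by_cases hj : j = 0
  · subst hj
    have h1 : ∀ p, sd m C r g (m 0) 0 p = st m C r g 0 p := fun p => by
      rw [H.sd_eq, if_pos (show Act m 0 0 p from Or.inl ⟨rfl, rfl⟩)]
    conv_lhs => rw [show m 0 + 1 = 0 + 1 by rw [H.m0]]
    funext w
    simp [cum, SS, h1, ZZ, LL]
  · have hL : 12 * LL m j ≤ m j := by
      simp only [LL, hj, if_false]; omega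
    have a0 : ∀ i, Act m j i 0 ↔ 4 * LL m j ≤ i ∧ i < 5 * LL m j := fun i => by simp [Act, hj]
    have a1 : ∀ i, Act m j i 1 ↔ 5 * LL m j ≤ i ∧ i < 6 * LL m j := fun i => by simp [Act, hj]
    have a2 : ∀ i, Act m j i 2 ↔ 6 * LL m j ≤ i ∧ i < 7 * LL m j := fun i => by simp [Act, hj]
    have a3 : ∀ i, Act m j i 3 ↔ 7 * LL m j ≤ i ∧ i < 8 * LL m j := fun i => by simp [Act, hj]
    have hS : ∀ i, SS m C r g (m j) i =
        (if 7 * LL m j ≤ i ∧ i < 8 * LL m j then st m C r g j 3 else id) ∘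
        (if 6 * LL m j ≤ i ∧ i < 7 * LL m j then st m C r g j 2 else id) ∘
        (if 5 * LL m j ≤ i ∧ i < 6 * LL m j then st m C r g j 1 else id) ∘
        (if 4 * LL m j ≤ i ∧ i < 5 * LL m j then st m C r g j 0 else id) := by
      intro i
      simp only [SS, H.sd_eq, a0, a1, a2, a3]
    rw [cum_add _ id (a := 8 * LL m j) (m j + 1 - 8 * LL m j) (by omega),
      cum_add _ (st m C r g j 3) (a := 7 * LL m j) (LL m j) (by omega),
      cum_add _ (st m C r g j 2) (a := 6 * LL m j) (LL m j) (by omega),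
      cum_add _ (st m C r g j 1) (a := 5 * LL m j) (LL m j) (by omega),
      cum_add _ (st m C r g j 0) (a := 4 * LL m j) (LL m j) (by omega),
      cum_add _ id (a := 0) (4 * LL m j) (by omega)]
    · funext w
      simp [cum, ZZ]
    all_goals
      intro i h1 h2
      rw [hS]
      split_ifs <;> first | omega | rfl

theorem thm_pert : S_tri → S_model → S_pert := by
  rintro ht ⟨g, Cg, hg⟩ m C r h0 h1 h2 h3
  have H : Hyp m C r g Cg := ⟨ht, hg, h0, h1, h2, h3⟩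
  refine ⟨GG m C r g 3 ∘ GG m C r g 2 ∘ GG m C r g 1 ∘ GG m C r g 0, SS m C r g, ?_, ?_, ?_, ?_,
    ?_, ?_⟩
  · exact ht.1 _ _ (H.GG_isD 3) (ht.1 _ _ (H.GG_isD 2) (ht.1 _ _ (H.GG_isD 1) (H.GG_isD 0)))
  · intro z hz
    simp only [Function.comp, H.GG_out _ hz]
  · intro d i w hw
    exact H.sd_box _ _ _ (H.sd_box _ _ _ (H.sd_box _ _ _ (H.sd_box _ _ _ hw)))
  · intro e i w hw
    have b0 := H.sd_box (e + i) i 0 hw
    have b1 := H.sd_box (e + i) i 1 b0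
    have b2 := H.sd_box (e + i) i 2 b1
    simp only [Function.comp, SS]
    rw [H.GG_loc 0 e i hw, H.GG_loc 1 e i b0, H.GG_loc 2 e i b1, H.GG_loc 3 e i b2]
  · intro j w
    rw [H.cum_eq]
    exact H.rel j w
  · intro d hd i w
    simp [SS, sd_triv hd]

end Pool.Agent.H237Z.Pert
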